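import Mathlib
import Pool.Agent.W546.N4.Defs
set_option autoImplicit false
open Matrix MeasureTheory Set Metric Filter Topology
open scoped ENNReal Nat

namespace Pool.Agent.W813.N4
open Pool.Agent.Helper82.OS Pool.Agent.W546.ST Pool.Agent.W546.N4

/-! ## matrix inequality -/

theorem amgm0 {N : ℕ} (hN : 1 ≤ N) (A : Matrix (Fin N) (Fin N) ℝ) (hA : A.PosSemidef) :
    A.det ≤ (A.trace / N) ^ N ∧ 0 ≤ A.trace / N := by
  have hN0 : (0:ℝ) < N := by exact_mod_cast hN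
  have hdet := hA.isHermitian.det_eq_prod_eigenvalues
  have htr := hA.isHermitian.trace_eq_sum_eigenvalues
  have hnn := hA.eigenvalues_nonneg
  generalize hA.isHermitian.eigenvalues = l at hdet htr hnn
  simp only [RCLike.ofReal_real_eq_id, id_eq] at hdet htr
  have htr0 : 0 ≤ A.trace / N := by
    rw [htr]
    exact div_nonneg (Finset.sum_nonneg fun i _ => hnn i) hN0.le
  refine ⟨?_, htr0⟩
  have h := Real.geom_mean_le_arith_mean_weighted Finset.univ (fun _ : Fin N => (1:ℝ) / N) l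
    (fun _ _ => by positivity) (by simp; field_simp) (fun i _ => hnn i)
  rw [Real.finsetProd_rpow _ _ (fun i _ => hnn i), ← hdet] at h
  have h2 : ∑ i : Fin N, (1:ℝ) / N * l i = A.trace / N := by
    rw [← Finset.mul_sum, ← htr]
    ring
  rw [h2] at h
  have hd0 : 0 ≤ A.det := by
    rw [hdet]
    exact Finset.prod_nonneg fun i _ => hnn i
  have h3 : (A.det ^ ((1:ℝ) / N)) ^ N = A.det := by
    rw [← Real.rpow_natCast, ← Real.rpow_mul hd0]
    rw [one_div, inv_mul_cancel₀ hN0.ne', Real.rpow_one]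
  rw [← h3]
  exact pow_le_pow_left₀ (Real.rpow_nonneg hd0 _) h N

theorem PPt {N : ℕ} (n : Fin N → ℝ) : (vecMulVec n n)ᵀ = vecMulVec n n := by
  ext i j
  simp [vecMulVec_apply, mul_comm]

theorem tr_proj {N : ℕ} (G : Matrix (Fin N) (Fin N) ℝ) (n : Fin N → ℝ) :
    (vecMulVec n n * G).trace = n ⬝ᵥ (G *ᵥ n) := by
  rw [vecMulVec_mul, trace_vecMulVec, dotProduct_comm, ← dotProduct_mulVec]

theorem tr_ge {N : ℕ} (G : Matrix (Fin N) (Fin N) ℝ) (hG : G.PosSemidef) (n : Fin N → ℝ)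
    (hn : n ⬝ᵥ n = 1) : 0 ≤ G.trace - n ⬝ᵥ (G *ᵥ n) := by
  set P : Matrix (Fin N) (Fin N) ℝ := vecMulVec n n with hP
  have hPP : P * P = P := by
    rw [hP, vecMulVec_mul_vecMulVec, hn]
    simp
  have hPt : Pᵀ = P := PPt n
  have hSt : (1 - P)ᴴ = 1 - P := by
    rw [conjTranspose_eq_transpose_of_trivial, transpose_sub, transpose_one, hPt]
  have hA := hG.conjTranspose_mul_mul_same (1 - P)
  rw [hSt] at hA
  have h1 := hA.trace_nonneg
  rw [trace_mul_cycle] at h1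
  have hSS : (1 - P) * (1 - P) = 1 - P := by
    rw [sub_mul, mul_sub, mul_sub, hPP]
    simp
  rw [hSS, sub_mul, one_mul, trace_sub, tr_proj] at h1
  exact h1

/-- the inequality for positive data -/
theorem amgm1 {N : ℕ} (hN : 2 ≤ N) (G : Matrix (Fin N) (Fin N) ℝ) (hG : G.PosSemidef) (n : Fin N → ℝ)
    (hn : n ⬝ᵥ n = 1) (g0 a : ℝ) (h1 : g0 = n ⬝ᵥ (G *ᵥ n)) (ha : 0 < a) (hg0 : 0 < g0)
    (h2 : G.trace - g0 = ((N : ℝ) - 1) * a) :
    G.det ≤ g0 * a ^ (N - 1) := by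
  have hN1 : 1 ≤ N := by omega
  have hN0 : (0:ℝ) < N := by exact_mod_cast hN1
  obtain ⟨s1, hs1, hs1p⟩ : ∃ s1 : ℝ, s1 ^ 2 = a⁻¹ ∧ 0 < s1 :=
    ⟨√(a⁻¹), Real.sq_sqrt (by positivity), Real.sqrt_pos.2 (by positivity)⟩
  obtain ⟨s2, hs2, hs2p⟩ : ∃ s2 : ℝ, s2 ^ 2 = g0⁻¹ ∧ 0 < s2 :=
    ⟨√(g0⁻¹), Real.sq_sqrt (by positivity), Real.sqrt_pos.2 (by positivity)⟩
  set P : Matrix (Fin N) (Fin N) ℝ := vecMulVec n n with hP
  have hPP : P * P = P := by
    rw [hP, vecMulVec_mul_vecMulVec, hn]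
    simp
  have hPt : Pᵀ = P := PPt n
  set S : Matrix (Fin N) (Fin N) ℝ := s1 • 1 + (s2 - s1) • P with hS
  have hSt : Sᴴ = S := by
    rw [hS, conjTranspose_eq_transpose_of_trivial, transpose_add, transpose_smul, transpose_smul,
      transpose_one, hPt]
  have hSS : S * S = s1 ^ 2 • 1 + (s2 ^ 2 - s1 ^ 2) • P := by
    rw [hS, add_mul, mul_add, mul_add]
    simp only [smul_mul_assoc, mul_smul_comm, one_mul, mul_one, hPP, smul_smul]
    rw [add_assoc, ← add_smul, ← add_smul]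
    congr 2
    · ring
    · ring
  have hPG : (P * G).trace = n ⬝ᵥ (G *ᵥ n) := tr_proj G n
  have hdetS : S.det = s1 ^ (N - 1) * s2 := by
    have e1 : S = s1 • (1 + vecMulVec (((s2 - s1) / s1) • n) n) := by
      rw [hS, smul_add, smul_vecMulVec, smul_smul, mul_div_cancel₀ _ hs1p.ne']
    rw [e1, det_smul, Fintype.card_fin, vecMulVec_eq Unit,
      det_one_add_replicateCol_mul_replicateRow, dotProduct_smul, hn]
    have : s1 ^ N = s1 ^ (N - 1) * s1 := by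
      rw [← pow_succ]
      congr 1
      omega
    rw [this, smul_eq_mul, mul_one]
    field_simp
    ring
  have hA := hG.conjTranspose_mul_mul_same S
  rw [hSt] at hA
  obtain ⟨k1, -⟩ := amgm0 hN1 (S * G * S) hA
  have hdA : (S * G * S).det = (a⁻¹) ^ (N - 1) * g0⁻¹ * G.det := by
    rw [det_mul, det_mul, hdetS, ← hs1, ← hs2]
    ring
  have htA : (S * G * S).trace = G.trace * a⁻¹ + (g0⁻¹ - a⁻¹) * (n ⬝ᵥ (G *ᵥ n)) := by
    rw [trace_mul_cycle, hSS, add_mul, smul_mul_assoc, smul_mul_assoc, one_mul, trace_add,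
      trace_smul, trace_smul, hPG, hs1, hs2, smul_eq_mul, smul_eq_mul]
    ring
  have htN : (S * G * S).trace / N = 1 := by
    have e : G.trace = g0 + ((N : ℝ) - 1) * a := by linarith
    rw [htA, ← h1, e]
    field_simp
    ring
  rw [htN, one_pow, hdA] at k1
  have h7 : G.det = g0 * a ^ (N - 1) * ((a⁻¹) ^ (N - 1) * g0⁻¹ * G.det) := by
    rw [inv_pow]
    have : a ^ (N - 1) ≠ 0 := (pow_pos ha _).ne'
    field_simp
  rw [h7]
  have : 0 ≤ g0 * a ^ (N - 1) := by positivity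
  nlinarith [mul_le_mul_of_nonneg_left k1 this]

/-- the general inequality -/
theorem amgm2 {N : ℕ} (hN : 2 ≤ N) (G : Matrix (Fin N) (Fin N) ℝ) (hG : G.PosSemidef) (n : Fin N → ℝ)
    (hn : n ⬝ᵥ n = 1) (g0 a : ℝ) (h1 : g0 = n ⬝ᵥ (G *ᵥ n))
    (h2 : G.trace - g0 = ((N : ℝ) - 1) * a) :
    G.det ≤ g0 * a ^ (N - 1) := by
  have hN1 : (0:ℝ) < (N : ℝ) - 1 := by
    have : (2:ℝ) ≤ N := by exact_mod_cast hN
    linarith
  have hg0 : 0 ≤ g0 := by
    rw [h1]
    have := hG.dotProduct_mulVec_nonneg n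
    simpa using this
  have ha : 0 ≤ a := by
    have h3 := tr_ge G hG n hn
    rw [← h1, h2] at h3
    by_contra hc
    push Not at hc
    nlinarith
  have key : ∀ ε : ℝ, 0 < ε → (G + ε • 1).det ≤ (g0 + ε) * (a + ε) ^ (N - 1) := by
    intro ε hε
    have hP : (G + ε • (1 : Matrix (Fin N) (Fin N) ℝ)).PosSemidef :=
      hG.add (PosSemidef.one.smul hε.le)
    refine amgm1 hN _ hP n hn (g0 + ε) (a + ε) ?_ (by linarith) (by linarith) ?_
    · rw [add_mulVec, dotProduct_add, ← h1, smul_mulVec, one_mulVec, dotProduct_smul, hn]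
      simp
    · rw [trace_add, trace_smul, trace_one]
      simp only [Fintype.card_fin, smul_eq_mul]
      linarith
  have c1 : Tendsto (fun ε : ℝ => (G + ε • (1 : Matrix (Fin N) (Fin N) ℝ)).det) (𝓝[>] 0) (𝓝 G.det) := by
    have hc : Continuous (fun ε : ℝ => (G + ε • (1 : Matrix (Fin N) (Fin N) ℝ)).det) := by
      fun_prop
    have := (hc.tendsto 0).mono_left (nhdsWithin_le_nhds (s := Ioi 0))
    simpa using this
  have c2 : Tendsto (fun ε : ℝ => (g0 + ε) * (a + ε) ^ (N - 1)) (𝓝[>] 0) (𝓝 (g0 * a ^ (N - 1))) := by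
    have hc : Continuous (fun ε : ℝ => (g0 + ε) * (a + ε) ^ (N - 1)) := by fun_prop
    have := (hc.tendsto 0).mono_left (nhdsWithin_le_nhds (s := Ioi 0))
    simpa using this
  refine le_of_tendsto_of_tendsto c1 c2 ?_
  filter_upwards [self_mem_nhdsWithin] with ε hε
  exact key ε hε

/-! ## the scalar inequality -/

theorem sc1 (p q r : ℝ) (hp : 0 ≤ p) (hq : 0 ≤ q) (hr : 0 < r) (h : p ^ 2 + q ^ 2 = 2 * r ^ 2) :
    (p ^ 3 + q ^ 3) / 2 ≤ r ^ 3 + 333 / 800 * ((p ^ 2 - q ^ 2) / 2) ^ 2 / r := by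
  have hm : 0 ≤ p * q := mul_nonneg hp hq
  have hm2 : p * q ≤ r ^ 2 := by nlinarith [sq_nonneg (p - q)]
  set s : ℝ := p * q / r ^ 2 with hs
  have hr2 : 0 < r ^ 2 := by positivity
  have hs0 : 0 ≤ s := div_nonneg hm hr2.le
  have hs1 : s ≤ 1 := by rw [hs, div_le_one hr2]; exact hm2
  have hpq : p * q = s * r ^ 2 := by rw [hs]; field_simp
  have hx : ((p ^ 2 - q ^ 2) / 2) ^ 2 = r ^ 4 * (1 - s ^ 2) := by
    have : ((p ^ 2 - q ^ 2) / 2) ^ 2 = ((p ^ 2 + q ^ 2) / 2) ^ 2 - (p * q) ^ 2 := by ring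
    rw [this, h, hpq]; ring
  have hR : r ^ 3 + 333 / 800 * ((p ^ 2 - q ^ 2) / 2) ^ 2 / r = r ^ 3 * (1 + 333 / 800 * (1 - s ^ 2)) := by
    rw [hx]; field_simp
  rw [hR]
  have hs2 : s ^ 2 ≤ 1 := by nlinarith
  have hRn : 0 ≤ r ^ 3 * (1 + 333 / 800 * (1 - s ^ 2)) := by
    have : 0 ≤ 1 + 333 / 800 * (1 - s ^ 2) := by nlinarith
    positivity
  refine le_of_sq_le_sq ?_ hRn
  have e1 : ((p ^ 3 + q ^ 3) / 2) ^ 2 = r ^ 6 * ((4 - 3 * s ^ 2 + s ^ 3) / 2) := by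
    have : (p ^ 3 + q ^ 3) ^ 2 = (p ^ 2 + q ^ 2) ^ 3 - 3 * (p * q) ^ 2 * (p ^ 2 + q ^ 2) + 2 * (p * q) ^ 3 := by
      ring
    rw [div_pow, this, h, hpq]; ring
  rw [e1]
  have e2 : (r ^ 3 * (1 + 333 / 800 * (1 - s ^ 2))) ^ 2 = r ^ 6 * (1 + 333 / 800 * (1 - s ^ 2)) ^ 2 := by
    ring
  rw [e2]
  refine mul_le_mul_of_nonneg_left ?_ (by positivity)
  have e3 : (1 + 333 / 800 * (1 - s ^ 2)) ^ 2 - (4 - 3 * s ^ 2 + s ^ 3) / 2 =
      (1 - s) * ((3689 / 640000) * (1 + s) + (3689 / 640000 + 3 / 2 - 2 * (333/800) - 2 * (333/800) ^ 2) * s ^ 2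
        - (333 / 800) ^ 2 * s ^ 3) := by
    ring
  have e4 : s ^ 3 ≤ s ^ 2 := by nlinarith [sq_nonneg s]
  have e5 : 0 ≤ (3689 / 640000) * (1 + s) + (3689 / 640000 + 3 / 2 - 2 * (333/800) - 2 * (333/800) ^ 2) * s ^ 2
        - (333 / 800 : ℝ) ^ 2 * s ^ 3 := by
    nlinarith [sq_nonneg s]
  nlinarith [mul_nonneg (sub_nonneg.2 hs1) e5]

theorem sc2 (g a t k D1 D2 : ℝ) (hg : 0 < g) (hat : t ^ 2 ≤ a)
    (h1 : 0 ≤ g - 2 * (t * k)) (h2 : 0 ≤ g + 2 * (t * k))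
    (h3 : 0 ≤ a + 2 / 3 * (t * k)) (h4 : 0 ≤ a - 2 / 3 * (t * k))
    (hD1 : D1 ≤ (g - 2 * (t * k)) * (a + 2 / 3 * (t * k)) ^ 3)
    (hD2 : D2 ≤ (g + 2 * (t * k)) * (a - 2 / 3 * (t * k)) ^ 3) :
    (√D1 + √D2) / 2 ≤ √g * (√(a ^ 3) + 37 / 200 * |t| * k ^ 2) := by
  have ha : 0 ≤ a := le_trans (sq_nonneg t) hat
  set y := t * k with hy
  set p := √(a + 2 / 3 * y) with hp
  set q := √(a - 2 / 3 * y) with hq
  set r := √a with hr
  have hp0 : 0 ≤ p := Real.sqrt_nonneg _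
  have hq0 : 0 ≤ q := Real.sqrt_nonneg _
  have hr0 : 0 ≤ r := Real.sqrt_nonneg _
  have hp2 : p ^ 2 = a + 2 / 3 * y := Real.sq_sqrt h3
  have hq2 : q ^ 2 = a - 2 / 3 * y := Real.sq_sqrt h4
  have hr2 : r ^ 2 = a := Real.sq_sqrt ha
  have hsg : 0 < √g := Real.sqrt_pos.2 hg
  have hsg2 : √g ^ 2 = g := Real.sq_sqrt hg.le
  have b1 : √D1 ≤ √g * (1 - y / g) * p ^ 3 := by
    have c0 : 0 ≤ √g * (1 - y / g) * p ^ 3 := by
      have : 0 ≤ 1 - y / g := by
        rw [sub_nonneg, div_le_one hg]; linarith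
      positivity
    refine Real.sqrt_le_iff.2 ⟨c0, hD1.trans ?_⟩
    have e : (√g * (1 - y / g) * p ^ 3) ^ 2 = (√g ^ 2 * (1 - y / g) ^ 2) * (p ^ 2) ^ 3 := by ring
    rw [e, hp2, hsg2]
    refine mul_le_mul_of_nonneg_right ?_ (pow_nonneg h3 3)
    have : g * (1 - y / g) ^ 2 = g - 2 * y + y ^ 2 / g := by field_simp; ring
    rw [this]
    have : 0 ≤ y ^ 2 / g := by positivity
    linarith
  have b2 : √D2 ≤ √g * (1 + y / g) * q ^ 3 := by
    have c0 : 0 ≤ √g * (1 + y / g) * q ^ 3 := by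
      have : 0 ≤ 1 + y / g := by
        have : 1 + y / g = (g + y) / g := by field_simp
        rw [this]
        exact div_nonneg (by linarith) hg.le
      positivity
    refine Real.sqrt_le_iff.2 ⟨c0, hD2.trans ?_⟩
    have e : (√g * (1 + y / g) * q ^ 3) ^ 2 = (√g ^ 2 * (1 + y / g) ^ 2) * (q ^ 2) ^ 3 := by ring
    rw [e, hq2, hsg2]
    refine mul_le_mul_of_nonneg_right ?_ (pow_nonneg h4 3)
    have : g * (1 + y / g) ^ 2 = g + 2 * y + y ^ 2 / g := by field_simp; ring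
    rw [this]
    have : 0 ≤ y ^ 2 / g := by positivity
    linarith
  have b3 : √(a ^ 3) = r ^ 3 := by
    rw [hr]
    have : a ^ 3 = (√a ^ 3) ^ 2 := by
      rw [← pow_mul, mul_comm, pow_mul, Real.sq_sqrt ha]
    rw [this, Real.sqrt_sq (by positivity)]
  rw [b3]
  -- odd part
  have b4 : 0 ≤ y / g * (p ^ 3 - q ^ 3) := by
    rcases le_total 0 y with h | h
    · have : q ≤ p := Real.sqrt_le_sqrt (by linarith)
      have h5 := pow_le_pow_left₀ hq0 this 3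
      exact mul_nonneg (div_nonneg h hg.le) (by linarith)
    · have : p ≤ q := Real.sqrt_le_sqrt (by linarith)
      have h5 := pow_le_pow_left₀ hp0 this 3
      exact mul_nonneg_of_nonpos_of_nonpos (div_nonpos_of_nonpos_of_nonneg h hg.le) (by linarith)
  have b5 : (p ^ 3 + q ^ 3) / 2 ≤ r ^ 3 + 37 / 200 * |t| * k ^ 2 := by
    rcases hr0.eq_or_lt with h | h
    · have ha0 : a = 0 := by rw [← hr2, ← h]; norm_num
      have ht0 : t = 0 := by
        have : t ^ 2 ≤ 0 := by rw [← ha0]; exact hat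
        exact pow_eq_zero_iff (two_ne_zero) |>.1 (le_antisymm this (sq_nonneg t))
      have hy0 : y = 0 := by rw [hy, ht0, zero_mul]
      have : p ^ 2 = 0 := by rw [hp2, ha0, hy0]; norm_num
      have hpz : p = 0 := pow_eq_zero_iff (two_ne_zero) |>.1 this
      have : q ^ 2 = 0 := by rw [hq2, ha0, hy0]; norm_num
      have hqz : q = 0 := pow_eq_zero_iff (two_ne_zero) |>.1 this
      rw [hpz, hqz, ← h, ht0]
      simp
    · have h6 := sc1 p q r hp0 hq0 h (by rw [hp2, hq2, hr2]; ring)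
      refine h6.trans ?_
      have h7 : ((p ^ 2 - q ^ 2) / 2) ^ 2 = 4 / 9 * y ^ 2 := by rw [hp2, hq2]; ring
      rw [h7]
      have htr : |t| ≤ r := by
        rw [hr]; exact Real.abs_le_sqrt hat
      have h8 : 333 / 800 * (4 / 9 * y ^ 2) / r ≤ 37 / 200 * |t| * k ^ 2 := by
        rw [div_le_iff₀ h]
        have h9 : y ^ 2 = |t| * |t| * k ^ 2 := by
          rw [abs_mul_abs_self, hy]; ring
        rw [h9]
        have h10 : |t| * |t| * k ^ 2 ≤ |t| * r * k ^ 2 := by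
          refine mul_le_mul_of_nonneg_right ?_ (sq_nonneg k)
          exact mul_le_mul_of_nonneg_left htr (abs_nonneg t)
        nlinarith
      linarith
  have b6 : (√D1 + √D2) / 2 ≤ √g * ((p ^ 3 + q ^ 3) / 2 - y / g * (p ^ 3 - q ^ 3) / 2) := by
    have : √g * ((p ^ 3 + q ^ 3) / 2 - y / g * (p ^ 3 - q ^ 3) / 2) =
        (√g * (1 - y / g) * p ^ 3 + √g * (1 + y / g) * q ^ 3) / 2 := by ring
    rw [this]; linarith
  refine b6.trans (mul_le_mul_of_nonneg_left ?_ hsg.le)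
  have : y / g * (p ^ 3 - q ^ 3) / 2 = (y / g * (p ^ 3 - q ^ 3)) / 2 := rfl
  linarith

/-! ## the Gram matrix -/

noncomputable def Mm (G : NP) (t : ℝ) (w : E 5) : Matrix (Fin 4) (Fin 5) ℝ :=
  Matrix.of fun i b => (if b = i.castSucc then t else 0) + G.gv w i b

noncomputable def om (w : E 5) : Fin 4 → ℝ := fun i => w i.castSucc

theorem gm_eq (G : NP) (t : ℝ) (w : E 5) :
    G.gm t w = Mm G t w * (Mm G t w)ᵀ + vecMulVec (om w) (om w) := by
  ext i j
  simp [NP.gm, Mm, om, Matrix.mul_apply, vecMulVec_apply]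

theorem gm_psd (G : NP) (t : ℝ) (w : E 5) : (G.gm t w).PosSemidef := by
  rw [gm_eq]
  refine PosSemidef.add ?_ ?_
  · have := posSemidef_self_mul_conjTranspose (Mm G t w)
    rwa [conjTranspose_eq_transpose_of_trivial] at this
  · have := posSemidef_vecMulVec_self_star (om w)
    simpa using this

theorem skew_gv (G : NP) (w : E 5) (j : Fin 4) : ∑ b, w b * G.gv w j b = 0 := by
  have h : w.ofLp ⬝ᵥ (G.Ga j *ᵥ w.ofLp) = - (w.ofLp ⬝ᵥ (G.Ga j *ᵥ w.ofLp)) := by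
    conv_lhs => rw [dotProduct_mulVec, dotProduct_comm, ← mulVec_transpose, G.sk j, neg_mulVec, dotProduct_neg]
  have h2 : w.ofLp ⬝ᵥ (G.Ga j *ᵥ w.ofLp) = 0 := by linarith
  simpa [dotProduct, NP.gv] using h2

theorem cr_gv (G : NP) (w : E 5) : ∑ j : Fin 4, G.gv w j j.castSucc = 0 := by
  have h : ∀ j : Fin 4, G.gv w j j.castSucc = ∑ i, -(G.Ga j i j.castSucc * w i) := by
    intro j
    simp only [NP.gv, mulVec, dotProduct]
    refine Finset.sum_congr rfl fun i _ => ?_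
    have := congrFun (congrFun (G.sk j) i) j.castSucc
    have h3 : G.Ga j j.castSucc i = - G.Ga j i j.castSucc := this
    rw [h3]; ring
  simp only [h]
  rw [Finset.sum_comm]
  refine Finset.sum_eq_zero fun i _ => ?_
  rw [Finset.sum_neg_distrib, ← Finset.sum_mul, G.cr i, zero_mul, neg_zero]

theorem gm_trace (G : NP) (t : ℝ) (w : E 5) : (G.gm t w).trace = 4 * t ^ 2 + G.B w + W546.N4.uu w := by
  have h := cr_gv G w
  have h1 : ∀ i : Fin 4, (G.gm t w).diag i = t ^ 2 + 2 * t * G.gv w i i.castSucc + (∑ b, G.gv w i b ^ 2)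
      + w i.castSucc ^ 2 := by
    intro i
    simp only [NP.gm, diag_apply, Matrix.of_apply]
    have h2 : ∀ b : Fin 5, ((if b = i.castSucc then t else 0) + G.gv w i b) *
        ((if b = i.castSucc then t else 0) + G.gv w i b) =
        (if b = i.castSucc then t ^ 2 + 2 * t * G.gv w i i.castSucc else 0) + G.gv w i b ^ 2 := by
      intro b
      by_cases hb : b = i.castSucc
      · rw [if_pos hb, if_pos hb, hb]; ring
      · rw [if_neg hb, if_neg hb]; ring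
    simp only [h2]
    rw [Finset.sum_add_distrib, Finset.sum_ite_eq' Finset.univ i.castSucc]
    simp only [Finset.mem_univ, if_true]
    ring
  rw [Matrix.trace]
  simp only [h1]
  rw [Finset.sum_add_distrib, Finset.sum_add_distrib, Finset.sum_add_distrib, ← Finset.mul_sum, h]
  simp only [Finset.sum_const, Finset.card_univ, Fintype.card_fin, NP.B, W546.N4.uu]
  simp

theorem gm_quad (G : NP) (t : ℝ) (w : E 5) :
    om w ⬝ᵥ (G.gm t w *ᵥ om w) = t ^ 2 * W546.N4.uu w - 2 * t * (w 4 * G.Z w 4) + (∑ b, G.Z w b ^ 2) + W546.N4.uu w ^ 2 := by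
  have h0 := skew_gv G w 0
  have h1 := skew_gv G w 1
  have h2 := skew_gv G w 2
  have h3 := skew_gv G w 3
  simp only [Fin.sum_univ_five] at h0 h1 h2 h3
  rw [gm_eq, add_mulVec, dotProduct_add, ← mulVec_mulVec, dotProduct_mulVec, ← mulVec_transpose]
  simp only [dotProduct, mulVec, Mm, om, transpose_apply, Matrix.of_apply, vecMulVec_apply, W546.N4.uu, NP.Z,
    Fin.sum_univ_four, Fin.sum_univ_five]
  simp [Fin.ext_iff] at h0 h1 h2 h3 ⊢
  linear_combination (2 * t * w 0) * h0 + (2 * t * w 1) * h1 + (2 * t * w 2) * h2 + (2 * t * w 3) * h3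

theorem om_om (w : E 5) : om w ⬝ᵥ om w = W546.N4.uu w := by
  simp only [dotProduct, om, W546.N4.uu]
  exact Finset.sum_congr rfl fun i _ => by ring

theorem PW : St4_PW := by
  intro G t w hu
  have hu0 : 0 < W546.N4.uu w := lt_of_le_of_ne (Finset.sum_nonneg fun i _ => sq_nonneg _) (Ne.symm hu)
  have hP : 0 ≤ G.P w := div_nonneg (Finset.sum_nonneg fun i _ => sq_nonneg _) hu0.le
  set n : Fin 4 → ℝ := (√(W546.N4.uu w))⁻¹ • om w with hn
  have hs : √(W546.N4.uu w) ^ 2 = W546.N4.uu w := Real.sq_sqrt hu0.le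
  have hsp : 0 < √(W546.N4.uu w) := Real.sqrt_pos.2 hu0
  have hnn : n ⬝ᵥ n = 1 := by
    rw [hn, smul_dotProduct, dotProduct_smul, om_om]
    simp only [smul_eq_mul]
    rw [← mul_assoc, ← mul_inv, ← sq, hs, inv_mul_cancel₀ hu]
  have hq : ∀ s : ℝ, n ⬝ᵥ (G.gm s w *ᵥ n) = s ^ 2 + W546.N4.uu w + G.P w - 2 * (s * G.k w) := by
    intro s
    rw [hn, mulVec_smul, smul_dotProduct, dotProduct_smul, gm_quad]
    simp only [smul_eq_mul, NP.P, NP.k]
    rw [← mul_assoc, ← mul_inv, ← sq, hs]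
    field_simp
    ring
  have hdet : ∀ s : ℝ, (G.gm s w).det ≤ (s ^ 2 + W546.N4.uu w + G.P w - 2 * (s * G.k w)) *
      (s ^ 2 + (G.B w - G.P w) / 3 + 2 / 3 * (s * G.k w)) ^ 3 := by
    intro s
    have := amgm2 (N := 4) (by norm_num) (G.gm s w) (gm_psd G s w) n hnn
      (s ^ 2 + W546.N4.uu w + G.P w - 2 * (s * G.k w)) (s ^ 2 + (G.B w - G.P w) / 3 + 2 / 3 * (s * G.k w))
      (hq s).symm (by rw [gm_trace]; push_cast; ring)
    simpa using this
  have htr : ∀ s : ℝ, 0 ≤ s ^ 2 + (G.B w - G.P w) / 3 + 2 / 3 * (s * G.k w) := by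
    intro s
    have := tr_ge (G.gm s w) (gm_psd G s w) n hnn
    rw [hq s, gm_trace] at this
    linarith
  have hq0 : ∀ s : ℝ, 0 ≤ s ^ 2 + W546.N4.uu w + G.P w - 2 * (s * G.k w) := by
    intro s
    rw [← hq s]
    have := (gm_psd G s w).dotProduct_mulVec_nonneg n
    simpa using this
  have hBP : G.P w ≤ G.B w := by
    have := htr 0
    simp at this
    linarith
  refine ⟨hP, hBP, ?_⟩
  have e1 := hq0 t
  have e2 := hq0 (-t)
  have e3 := htr t
  have e4 := htr (-t)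
  have e5 := hdet t
  have e6 := hdet (-t)
  have r1 : (-t) ^ 2 + W546.N4.uu w + G.P w - 2 * (-t * G.k w) = t ^ 2 + W546.N4.uu w + G.P w + 2 * (t * G.k w) := by ring
  have r2 : (-t) ^ 2 + (G.B w - G.P w) / 3 + 2 / 3 * (-t * G.k w) =
    t ^ 2 + (G.B w - G.P w) / 3 - 2 / 3 * (t * G.k w) := by ring
  rw [r1] at e2
  rw [r2] at e4
  rw [r1, r2] at e6
  exact sc2 (t ^ 2 + W546.N4.uu w + G.P w) (t ^ 2 + (G.B w - G.P w) / 3) t (G.k w) _ _ (by positivity)
    (by linarith) e1 e2 e3 e4 e5 e6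

end Pool.Agent.W813.N4
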